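import Mathlib
import Pool.Agent.H257R3.SI.Stubs

set_option autoImplicit false

/-! A7: summation over dyadic levels. -/

namespace Pool.Agent.H989R3

open Finset Pool.Agent.H257R3.SI

theorem dyadic_sum (H : ℕ) : ∑ n ∈ range H, ((n : ℝ) + 1) ^ 2 * (1 / 2 : ℝ) ^ n =
    12 - (2 * (H : ℝ) ^ 2 + 8 * H + 12) * (1 / 2 : ℝ) ^ H := by
  induction H with
  | zero => simp
  | succ H ih =>
    rw [sum_range_succ, ih, pow_succ]
    push_cast
    ring

theorem a7 : St_A7 := by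
  intro ι s w A hA hw hc
  classical
  have h1 : ∀ i, ∃ n : ℕ, i ∈ s → (1 / 2 : ℝ) ^ (n + 1) < w i ∧ w i ≤ (1 / 2 : ℝ) ^ n := by
    intro i
    by_cases hi : i ∈ s
    · obtain ⟨n, hn⟩ := exists_nat_pow_near_of_lt_one (hw i hi).1 (hw i hi).2
        (by norm_num : (0 : ℝ) < 1 / 2) (by norm_num)
      exact ⟨n, fun _ => hn⟩
    · exact ⟨0, fun h => absurd h hi⟩
  choose n hn using h1
  have h2 : ∑ i ∈ s, w i ≤ ∑ i ∈ s, (1 / 2 : ℝ) ^ (n i) :=
    sum_le_sum fun i hi => (hn i hi).2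
  set H := s.sup n + 1 with hH
  have h3 : ∀ i ∈ s, n i ∈ range H := fun i hi =>
    mem_range.mpr (Nat.lt_succ_of_le (le_sup (f := n) hi))
  refine h2.trans ?_
  rw [← sum_fiberwise_of_maps_to h3]
  have h4 : ∀ k ∈ range H, ∑ i ∈ s with n i = k, (1 / 2 : ℝ) ^ (n i) ≤
      A * (((k : ℝ) + 1) ^ 2 * (1 / 2 : ℝ) ^ k) := by
    intro k _
    have h5 : ∑ i ∈ s with n i = k, (1 / 2 : ℝ) ^ (n i) =
        ((s.filter (fun i => n i = k)).card : ℝ) * (1 / 2 : ℝ) ^ k := by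
      rw [← nsmul_eq_mul, ← sum_const]
      refine sum_congr rfl fun i hi => ?_
      rw [(mem_filter.mp hi).2]
    rw [h5, ← mul_assoc]
    refine mul_le_mul_of_nonneg_right ?_ (by positivity)
    refine le_trans ?_ (hc k)
    exact_mod_cast card_le_card fun i hi => by
      obtain ⟨hi1, hi2⟩ := mem_filter.mp hi
      have := hn i hi1
      rw [hi2] at this
      exact mem_filter.mpr ⟨hi1, this⟩
  refine (sum_le_sum h4).trans ?_
  rw [← mul_sum, dyadic_sum, mul_comm]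
  refine mul_le_mul_of_nonneg_right ?_ hA
  have : 0 ≤ (2 * (H : ℝ) ^ 2 + 8 * H + 12) * (1 / 2 : ℝ) ^ H := by positivity
  linarith

end Pool.Agent.H989R3
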